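import Pool.Agent.Q198.FTO.Two

set_option autoImplicit false

open Set Topology

namespace Pool.Agent.Q198.FTO

open Pool.Agent.Q172.FTO

/-- the scaling map. -/
def sc (p : ℝ × ℝ × ℝ) : ℝ × ℝ × ℝ := (3 * p.1 - 2, 3 * p.2.1, 3 * p.2.2)

theorem sc_inj : Function.Injective sc := by
  rintro ⟨x, y, z⟩ ⟨x', y', z'⟩ h
  simp only [sc, Prod.mk.injEq] at h
  obtain ⟨h1, h2, h3⟩ := h
  simp only [Prod.mk.injEq]
  exact ⟨by linarith, by linarith, by linarith⟩

theorem sc_mem (hG : S_G) {p : ℝ × ℝ × ℝ} (hp : p ∈ XS) (h : 2 / 3 ≤ r p) : sc p ∈ XS := by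
  simp only [r] at h
  rcases hp with ⟨h0, h1, h2, h3⟩ | ⟨m, d, hmd, i, h0, h1, h2, h3⟩
  · left
    rw [h2] at h
    refine ⟨?_, ?_, ?_, ?_⟩
    · show 0 ≤ 3 * p.1 - 2
      linarith
    · show 3 * p.1 - 2 ≤ 1
      linarith
    · show 3 * p.2.1 = 0
      rw [h2]; ring
    · show 3 * p.2.2 = 0
      rw [h3]; ring
  · right
    obtain ⟨c1, c2, c3, c4⟩ := hG.1 m d hmd
    have hd : d * (1 / 2) ^ i ≤ d := mul_le_of_le_one_right c1.le (pow_le1 i)
    have hm : 2 / 3 ≤ m := by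
      by_contra hc
      push Not at hc
      have := hG.2.2.2.2.2.2 m d hmd hc
      linarith
    refine ⟨3 * m - 2, 3 * d, hG.2.2.2.2.1 m d hmd hm, i, ?_, ?_, ?_, ?_⟩
    · show 3 * p.1 - 2 = 3 * m - 2
      rw [h0]
    · show 0 ≤ 3 * p.2.1
      linarith
    · show 3 * p.2.1 ≤ 3 * d * (1 / 2) ^ i
      linarith
    · show 3 * p.2.2 = 3 * p.2.1 * (1 / 2) ^ i
      rw [h3]; ring

theorem sc_zero (hG : S_G) {p : ℝ × ℝ × ℝ} (hp : p ∈ XS) (h : r p = 2 / 3) : sc p = (0, 0, 0) := by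
  have h' := sc_mem hG hp h.ge
  obtain ⟨b1, b2, b3, b4, b5⟩ := bounds hG h'
  simp only [sc] at b1 b2 b3 b4 b5
  simp only [r] at h
  simp only [sc, Prod.mk.injEq]
  exact ⟨by linarith, by linarith, by linarith⟩

/-- the inverse of the scaling map. -/
theorem sc_surj {q : ℝ × ℝ × ℝ} (hG : S_G) (hq : q ∈ XS) :
    ∃ p ∈ XS, 2 / 3 ≤ r p ∧ sc p = q := by
  obtain ⟨b1, b2, b3, b4, b5⟩ := bounds hG hq
  refine ⟨((q.1 + 2) / 3, q.2.1 / 3, q.2.2 / 3), ?_, ?_, ?_⟩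
  · rcases hq with ⟨h0, h1, h2, h3⟩ | ⟨m, d, hmd, i, h0, h1, h2, h3⟩
    · left
      refine ⟨?_, ?_, ?_, ?_⟩
      · show 0 ≤ (q.1 + 2) / 3
        linarith
      · show (q.1 + 2) / 3 ≤ 1
        linarith
      · show q.2.1 / 3 = 0
        rw [h2]; ring
      · show q.2.2 / 3 = 0
        rw [h3]; ring
    · right
      refine ⟨(m + 2) / 3, d / 3, G.right hmd, i, ?_, ?_, ?_, ?_⟩
      · show (q.1 + 2) / 3 = (m + 2) / 3
        rw [h0]
      · show 0 ≤ q.2.1 / 3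
        linarith
      · show q.2.1 / 3 ≤ d / 3 * (1 / 2) ^ i
        linarith
      · show q.2.2 / 3 = q.2.1 / 3 * (1 / 2) ^ i
        rw [h3]; ring
  · simp only [r]
    linarith
  · obtain ⟨x, y, z⟩ := q
    simp only [sc, Prod.mk.injEq]
    exact ⟨by ring, by ring, by ring⟩

theorem job3 : S_glue := by
  intro hG hX γ hγ hγX hγe hγf
  classical
  set γ' : ℝ → ℝ × ℝ × ℝ := fun s => γ (max 0 (min s (2 / 3))) with hγ'
  have hmem : ∀ s : ℝ, max 0 (min s (2 / 3)) ∈ Icc (0 : ℝ) (2 / 3) := by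
    intro s
    refine ⟨le_max_left _ _, max_le (by norm_num) (min_le_right _ _)⟩
  have hγ'c : Continuous γ' := by
    have : Continuous (fun s : ℝ => (⟨max 0 (min s (2 / 3)), hmem s⟩ : Icc (0 : ℝ) (2 / 3))) := by
      fun_prop
    exact (continuousOn_iff_continuous_domRestrict.mp hγ).comp this
  have hγ'e : ∀ s ∈ Icc (0 : ℝ) (2 / 3), γ' s = γ s := by
    intro s hs
    simp only [hγ']
    rw [min_eq_left hs.2, max_eq_right hs.1]
  have hrc : Continuous r := by unfold r; fun_prop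
  have hscc : Continuous sc := by unfold sc; fun_prop
  have hr0 : ∀ p ∈ XS, 0 ≤ r p := by
    intro p hp
    obtain ⟨b1, b2, b3, b4, b5⟩ := bounds hG hp
    exact add_nonneg b1 b2
  set F : ℝ × ℝ × ℝ → ℝ × ℝ × ℝ := fun p => if r p ≤ 2 / 3 then γ' (r p) else sc p with hF
  have hF1 : ∀ p ∈ XS, r p ≤ 2 / 3 → F p = γ (r p) := by
    intro p hp h
    simp only [hF]
    rw [if_pos h, hγ'e _ ⟨hr0 p hp, h⟩]
  have hF2 : ∀ p ∈ XS, 2 / 3 ≤ r p → F p = sc p := by
    intro p hp h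
    rcases h.eq_or_lt with h1 | h1
    · rw [hF1 p hp h1.ge, ← h1, hγe, sc_zero hG hp h1.symm]
    · simp only [hF]
      rw [if_neg (not_le.mpr h1)]
  have hFX : ∀ p ∈ XS, F p ∈ XS := by
    intro p hp
    rcases le_total (r p) (2 / 3) with h | h
    · rw [hF1 p hp h]; exact hγX _ ⟨hr0 p hp, h⟩
    · rw [hF2 p hp h]; exact sc_mem hG hp h
  refine ⟨fun p => ⟨F p, hFX p p.2⟩, ⟨?_, ?_, ?_⟩, ?_⟩
  · refine Continuous.subtype_mk ?_ _
    have h1 : Continuous (fun p : XS => if r p ≤ 2 / 3 then γ' (r p) else sc p) := by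
      refine Continuous.if_le (hγ'c.comp (hrc.comp continuous_subtype_val))
        (hscc.comp continuous_subtype_val) (hrc.comp continuous_subtype_val) continuous_const ?_
      intro p hp
      have h2 := hF1 p p.2 hp.le
      have h3 := hF2 p p.2 hp.ge
      show γ' (r p) = sc p
      rw [hγ'e _ ⟨hr0 p p.2, hp.le⟩, ← h2, h3]
    exact h1
  · rintro ⟨q, hq⟩
    obtain ⟨p, hp, h1, h2⟩ := sc_surj hG hq
    exact ⟨⟨p, hp⟩, Subtype.ext (by show F p = q; rw [hF2 p hp h1, h2])⟩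
  · rintro ⟨q, hq⟩
    have hfib : {p : ℝ × ℝ × ℝ | p ∈ XS ∧ F p = q}.Finite := by
      have h1 : (⋃ s ∈ {s ∈ Icc (0 : ℝ) (2 / 3) | γ s = q}, {p ∈ XS | r p = s}).Finite :=
        (hγf q).biUnion (fun s _ => (hX hG).2.2.2 s)
      have h2 : {p : ℝ × ℝ × ℝ | sc p = q}.Subsingleton := by
        intro a ha b hb
        exact sc_inj ((show sc a = q from ha).trans (show sc b = q from hb).symm)
      refine (h1.union h2.finite).subset ?_
      rintro p ⟨hp, hFp⟩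
      rcases le_total (r p) (2 / 3) with h | h
      · left
        refine mem_biUnion (x := r p) ⟨⟨hr0 p hp, h⟩, ?_⟩ ⟨hp, rfl⟩
        rw [← hF1 p hp h, hFp]
      · right
        show sc p = q
        rw [← hF2 p hp h, hFp]
    refine Set.Finite.of_finite_image (f := Subtype.val) (hfib.subset ?_)
      (Subtype.val_injective.injOn)
    rintro _ ⟨⟨p, hp⟩, h, rfl⟩
    exact ⟨hp, congrArg Subtype.val (show _ = _ from h)⟩
  · intro p h
    exact hF1 p p.2 h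

end Pool.Agent.Q198.FTO
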