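import Pool.Agent.Q172.FTO.Def

set_option autoImplicit false

open Set Topology

namespace Pool.Agent.Q198.FTO

open Pool.Agent.Q172.FTO

theorem arc_eq : arc = (fun x : ℝ => ((x, 0, 0) : ℝ × ℝ × ℝ)) '' Icc 0 1 := by
  ext ⟨x, y, z⟩
  simp only [arc, mem_ofPred_eq, mem_image, mem_Icc, Prod.mk.injEq]
  constructor
  · rintro ⟨h0, h1, h2, h3⟩
    exact ⟨x, ⟨h0, h1⟩, rfl, h2.symm, h3.symm⟩
  · rintro ⟨w, ⟨h0, h1⟩, rfl, h2, h3⟩
    exact ⟨h0, h1, h2.symm, h3.symm⟩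

theorem arm_eq (m d : ℝ) (i : ℕ) :
    arm m d i = (fun x : ℝ => ((m, x, x * (1 / 2) ^ i) : ℝ × ℝ × ℝ)) '' Icc 0 (d * (1 / 2) ^ i) := by
  ext ⟨x, y, z⟩
  simp only [arm, mem_ofPred_eq, mem_image, mem_Icc, Prod.mk.injEq]
  constructor
  · rintro ⟨h0, h1, h2, h3⟩
    exact ⟨y, ⟨h1, h2⟩, h0.symm, rfl, h3.symm⟩
  · rintro ⟨w, ⟨h0, h1⟩, h2, rfl, h3⟩
    exact ⟨h2.symm, h0, h1, h3.symm⟩

theorem arc_compact : IsCompact arc := by
  rw [arc_eq]; exact isCompact_Icc.image (by fun_prop)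

theorem arm_compact (m d : ℝ) (i : ℕ) : IsCompact (arm m d i) := by
  rw [arm_eq]; exact isCompact_Icc.image (by fun_prop)

theorem arc_prec : IsPreconnected arc := by
  rw [arc_eq]; exact isPreconnected_Icc.image _ (by fun_prop)

theorem arm_prec (m d : ℝ) (i : ℕ) : IsPreconnected (arm m d i) := by
  rw [arm_eq]; exact isPreconnected_Icc.image _ (by fun_prop)

theorem pow_le1 (i : ℕ) : (1 / 2 : ℝ) ^ i ≤ 1 := pow_le_one₀ (by norm_num) (by norm_num)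
theorem pow_pos1 (i : ℕ) : 0 < (1 / 2 : ℝ) ^ i := by positivity

/-- bounds on the points of `XS`. -/
theorem bounds (hG : S_G) {p : ℝ × ℝ × ℝ} (hp : p ∈ XS) :
    0 ≤ p.1 ∧ 0 ≤ p.2.1 ∧ 0 ≤ p.2.2 ∧ p.2.2 ≤ p.2.1 ∧ p.1 + p.2.1 ≤ 1 := by
  obtain ⟨g1, -⟩ := hG
  rcases hp with ⟨h0, h1, h2, h3⟩ | ⟨m, d, hG, i, h0, h1, h2, h3⟩
  · rw [h2, h3]
    exact ⟨h0, le_refl _, le_refl _, le_refl _, by linarith⟩
  · obtain ⟨a1, a2, a3, a4⟩ := g1 m d hG
    have hd : d * (1 / 2) ^ i ≤ d := mul_le_of_le_one_right a1.le (pow_le1 i)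
    refine ⟨by rw [h0]; exact a2.le, h1, ?_, ?_, by rw [h0]; linarith⟩
    · rw [h3]; exact mul_nonneg h1 (pow_pos1 i).le
    · rw [h3]; exact mul_le_of_le_one_right h1 (pow_le1 i)

theorem fin_G (hG : S_G) : ∀ n : ℕ, {q : ℝ × ℝ | G q.1 q.2 ∧ (1 / 3) ^ n / 8 ≤ q.2}.Finite := by
  obtain ⟨g1, -⟩ := hG
  intro n
  induction n with
  | zero =>
    refine (Set.finite_singleton ((1 / 2, 1 / 8) : ℝ × ℝ)).subset ?_
    rintro ⟨m, d⟩ ⟨h, h1⟩
    simp only [pow_zero] at h h1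
    cases h with
    | base => rfl
    | left h2 => have := (g1 _ _ h2).2.2.2; exfalso; linarith
    | right h2 => have := (g1 _ _ h2).2.2.2; exfalso; linarith
  | succ n ih =>
    refine (((Set.finite_singleton ((1 / 2, 1 / 8) : ℝ × ℝ)).union
      (ih.image (fun q => (q.1 / 3, q.2 / 3)))).union
      (ih.image (fun q => ((q.1 + 2) / 3, q.2 / 3)))).subset ?_
    rintro ⟨m, d⟩ ⟨h, h1⟩
    simp only [pow_succ] at h h1
    cases h with
    | base => exact Or.inl (Or.inl rfl)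
    | @left m' d' h2 =>
      refine Or.inl (Or.inr ⟨(m', d'), ⟨h2, ?_⟩, rfl⟩)
      show (1 / 3) ^ n / 8 ≤ d'
      linarith
    | @right m' d' h2 =>
      refine Or.inr ⟨(m', d'), ⟨h2, ?_⟩, rfl⟩
      show (1 / 3) ^ n / 8 ≤ d'
      linarith

theorem fin_G' (hG : S_G) {e : ℝ} (he : 0 < e) : {q : ℝ × ℝ | G q.1 q.2 ∧ e < q.2}.Finite := by
  obtain ⟨n, hn⟩ := exists_pow_lt_of_lt_one (x := 8 * e) (y := (1 / 3 : ℝ)) (by linarith) (by norm_num)
  refine (fin_G hG n).subset ?_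
  rintro q ⟨h1, h2⟩
  exact ⟨h1, by linarith⟩

/-- the arms reaching height `e` are finitely many. -/
theorem fin_arm (hG : S_G) {e : ℝ} (he : 0 < e) :
    {q : (ℝ × ℝ) × ℕ | G q.1.1 q.1.2 ∧ e < q.1.2 * (1 / 2) ^ q.2}.Finite := by
  obtain ⟨n, hn⟩ := exists_pow_lt_of_lt_one (x := 8 * e) (y := (1 / 2 : ℝ)) (by linarith) (by norm_num)
  refine ((fin_G' hG he).prod (Set.finite_lt_nat n)).subset ?_
  rintro ⟨⟨m, d⟩, i⟩ ⟨h1, h2⟩
  obtain ⟨a1, a2, a3, a4⟩ := hG.1 m d h1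
  simp only at h1 h2
  have hd : d * (1 / 2) ^ i ≤ d := mul_le_of_le_one_right a1.le (pow_le1 i)
  refine ⟨⟨h1, ?_⟩, ?_⟩
  · show e < d
    linarith
  · show i < n
    by_contra hc
    push Not at hc
    have h3 : (1 / 2 : ℝ) ^ i ≤ (1 / 2) ^ n :=
      pow_le_pow_of_le_one (by norm_num) (by norm_num) hc
    have h4 : d * (1 / 2) ^ i ≤ 1 / 8 * (1 / 2) ^ n :=
      mul_le_mul a4 h3 (by positivity) (by norm_num)
    linarith

theorem closed_XS (hG : S_G) : IsClosed XS := by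
  refine isClosed_of_closure_subset ?_
  intro p hp
  have hcl : IsClosed {p : ℝ × ℝ × ℝ | 0 ≤ p.1 ∧ 0 ≤ p.2.1 ∧ 0 ≤ p.2.2 ∧ p.2.2 ≤ p.2.1 ∧
      p.1 + p.2.1 ≤ 1} := by
    have c1 : Continuous (fun p : ℝ × ℝ × ℝ => p.1) := by fun_prop
    have c2 : Continuous (fun p : ℝ × ℝ × ℝ => p.2.1) := by fun_prop
    have c3 : Continuous (fun p : ℝ × ℝ × ℝ => p.2.2) := by fun_prop
    have k : Continuous (fun _ : ℝ × ℝ × ℝ => (0 : ℝ)) := continuous_const
    have k1 : Continuous (fun _ : ℝ × ℝ × ℝ => (1 : ℝ)) := continuous_const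
    exact (isClosed_le k c1).inter ((isClosed_le k c2).inter ((isClosed_le k c3).inter
      ((isClosed_le c3 c2).inter (isClosed_le (c1.add c2) k1))))
  have hb := closure_minimal (s := XS) (fun q hq => bounds hG hq) hcl hp
  obtain ⟨b1, b2, b3, b4, b5⟩ := hb
  rcases b2.eq_or_lt with h0 | h0
  · left
    refine ⟨b1, by linarith, h0.symm, by linarith⟩
  · set e := p.2.1 / 2 with he
    have he0 : 0 < e := by rw [he]; linarith
    have hU : IsOpen {q : ℝ × ℝ × ℝ | e < q.2.1} := isOpen_lt (by fun_prop) (by fun_prop)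
    have hpU : p ∈ {q : ℝ × ℝ × ℝ | e < q.2.1} := by
      show e < p.2.1
      rw [he]; linarith
    have h1 : p ∈ closure ({q : ℝ × ℝ × ℝ | e < q.2.1} ∩ XS) :=
      hU.inter_closure ⟨hpU, hp⟩
    set K : Set (ℝ × ℝ × ℝ) := ⋃ q ∈ {q : (ℝ × ℝ) × ℕ | G q.1.1 q.1.2 ∧ e < q.1.2 * (1 / 2) ^ q.2},
      arm q.1.1 q.1.2 q.2 with hK
    have hKc : IsClosed K := (fin_arm hG he0).isClosed_biUnion
      (fun q _ => (arm_compact _ _ _).isClosed)
    have hsub : {q : ℝ × ℝ × ℝ | e < q.2.1} ∩ XS ⊆ K := by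
      rintro q ⟨hq1, hq2⟩
      have hq1' : e < q.2.1 := hq1
      rcases hq2 with ⟨_, _, h2, _⟩ | ⟨m, d, hG', i, hi⟩
      · exfalso; rw [h2] at hq1'; linarith
      · rw [hK]
        refine mem_biUnion (x := ((m, d), i)) ⟨hG', ?_⟩ hi
        exact lt_of_lt_of_le hq1' hi.2.2.1
    have h2 : p ∈ K := closure_minimal hsub hKc h1
    rw [hK] at h2
    simp only [mem_iUnion] at h2
    obtain ⟨q, hq, hpq⟩ := h2
    exact Or.inr ⟨q.1.1, q.1.2, hq.1, q.2, hpq⟩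

theorem compact_XS (hG : S_G) : IsCompact XS := by
  refine IsCompact.of_isClosed_subset
    ((isCompact_Icc (a := (0 : ℝ)) (b := 1)).prod
      ((isCompact_Icc (a := (0 : ℝ)) (b := 1)).prod (isCompact_Icc (a := (0 : ℝ)) (b := 1))))
    (closed_XS hG) ?_
  intro p hp
  obtain ⟨b1, b2, b3, b4, b5⟩ := bounds hG hp
  exact ⟨⟨b1, by linarith⟩, ⟨b2, by linarith⟩, ⟨b3, by linarith⟩⟩

theorem zero_mem : ((0, 0, 0) : ℝ × ℝ × ℝ) ∈ arc := ⟨le_refl _, by norm_num, rfl, rfl⟩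

theorem conn_XS (hG : S_G) : IsConnected XS := by
  refine ⟨⟨(0, 0, 0), Or.inl zero_mem⟩, ?_⟩
  refine isPreconnected_of_forall ((0, 0, 0) : ℝ × ℝ × ℝ) ?_
  intro p hp
  rcases hp with hp | ⟨m, d, hmd, i, hp⟩
  · exact ⟨arc, fun q hq => Or.inl hq, zero_mem, hp, arc_prec⟩
  · obtain ⟨a1, a2, a3, a4⟩ := hG.1 m d hmd
    refine ⟨arc ∪ arm m d i, ?_, Or.inl zero_mem, Or.inr hp, ?_⟩
    · rintro q (hq | hq)
      · exact Or.inl hq
      · exact Or.inr ⟨m, d, hmd, i, hq⟩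
    · refine IsPreconnected.union ((m, 0, 0) : ℝ × ℝ × ℝ) ?_ ?_ arc_prec (arm_prec m d i)
      · exact ⟨a2.le, by show m ≤ 1; linarith, rfl, rfl⟩
      · refine ⟨rfl, le_refl _, ?_, ?_⟩
        · show 0 ≤ d * (1 / 2) ^ i
          positivity
        · show (0 : ℝ) = 0 * (1 / 2) ^ i
          ring

theorem fibre_fin (hG : S_G) (t : ℝ) : {p ∈ XS | r p = t}.Finite := by
  by_cases hne : ∃ m d, G m d ∧ m < t ∧ t ≤ m + d
  · obtain ⟨m0, d0, hG0, hm, htd⟩ := hne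
    obtain ⟨a1, a2, a3, a4⟩ := hG.1 m0 d0 hG0
    obtain ⟨n, hn⟩ := exists_pow_lt_of_lt_one (x := 8 * (t - m0)) (y := (1 / 2 : ℝ)) (by linarith)
      (by norm_num)
    refine ((Set.finite_singleton ((t, 0, 0) : ℝ × ℝ × ℝ)).union
      ((Set.finite_lt_nat n).image
        (fun i : ℕ => ((m0, t - m0, (t - m0) * (1 / 2) ^ i) : ℝ × ℝ × ℝ)))).subset ?_
    rintro ⟨x, y, z⟩ ⟨hp, hr⟩
    simp only [r] at hr
    rcases hp with ⟨_, _, h2, h3⟩ | ⟨m, d, hmd, i, h0, h1, h2, h3⟩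
    · left
      simp only at h2 h3
      subst h2 h3
      rw [add_zero] at hr
      rw [hr]; rfl
    · simp only at h0 h1 h2 h3
      subst h0
      obtain ⟨c1, c2, c3, c4⟩ := hG.1 x d hmd
      have hd : d * (1 / 2) ^ i ≤ d := mul_le_of_le_one_right c1.le (pow_le1 i)
      have hxm : x = m0 := by
        rcases lt_trichotomy x m0 with h | h | h
        · have := hG.2.1 x d m0 d0 hmd hG0 h
          exfalso; linarith
        · exact h
        · have := hG.2.1 m0 d0 x d hG0 hmd h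
          exfalso; linarith
      subst hxm
      right
      have hy : y = t - x := by linarith
      refine ⟨i, ?_, ?_⟩
      · show i < n
        by_contra hc
        push Not at hc
        have h5 : (1 / 2 : ℝ) ^ i ≤ (1 / 2) ^ n :=
          pow_le_pow_of_le_one (by norm_num) (by norm_num) hc
        have h4 : d * (1 / 2) ^ i ≤ 1 / 8 * (1 / 2) ^ n :=
          mul_le_mul c4 h5 (by positivity) (by norm_num)
        linarith
      · simp only
        rw [h3, hy]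
  · refine (Set.finite_singleton ((t, 0, 0) : ℝ × ℝ × ℝ)).subset ?_
    rintro ⟨x, y, z⟩ ⟨hp, hr⟩
    simp only [r] at hr
    rcases hp with ⟨_, _, h2, h3⟩ | ⟨m, d, hmd, i, h0, h1, h2, h3⟩
    · simp only at h2 h3
      subst h2 h3
      rw [add_zero] at hr
      rw [hr]; rfl
    · simp only at h0 h1 h2 h3
      subst h0
      obtain ⟨c1, c2, c3, c4⟩ := hG.1 x d hmd
      have hd : d * (1 / 2) ^ i ≤ d := mul_le_of_le_one_right c1.le (pow_le1 i)
      rcases h1.eq_or_lt with h | h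
      · subst h
        rw [add_zero] at hr
        subst hr
        rw [h3, zero_mul]; rfl
      · exact absurd ⟨x, d, hmd, by linarith, by linarith⟩ hne

theorem job2 : S_X := by
  intro hG
  refine ⟨compact_XS hG, conn_XS hG, ?_, fibre_fin hG⟩
  intro p hp
  obtain ⟨b1, b2, b3, b4, b5⟩ := bounds hG hp
  exact ⟨add_nonneg b1 b2, b5⟩

end Pool.Agent.Q198.FTO
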